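import Pool.Agent.W_5d512e_flt.Final

/-!
A dichotomy for iterated transducers, by the transformation semigroup that acts on the states: for
every semigroup the words generated are all morphic, or their filters are all infinite words
generated in polynomial time. In the second case the question is as hard for these words as in
general, and then also for slow growth and outputs of length at most two.
-/

open Pool.Agent.W_MP_5d512e_h33 Pool.Agent.W_MP_5d512e_dic Pool.Agent.W_5d512e_flt
open Pool.Agent.W_5d512e_h80 (FilterOf)
open Pool.Agent.W_5d512e_alt (PolyTime)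

namespace Pool.Agent.Results.MP_5d512e_lc.Dichotomy

/-- Let `F` be any set of maps from `Fin p` to itself that is closed under composition. Call `F`
hard if there are states `s ≠ t` and
* maps `x, y` in `F` with `x s = x t = s` and `y s = y t = t` (`HasReset F`), or
* maps `e, a, b` in `F` with `e s = s`, `e t = t`, `a s = t`, `b t = s` (`HasSwap F`).

1. Let `F` be hard and `k` a natural number, and consider the words generated by iterating the
non-erasing dgsm's with states `Fin p` such that every letter acts on the states by a map in `F`,
every output has length at most two, and the growth satisfies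
`|τ^n(a)| ^ k ≤ C * (n + 1) ^ (k + 1)` for some constant `C` and all `n`. An infinite word is
generated in polynomial time (`PolyTime w`) if and only if it is obtained from such a word by
deleting some letters and renaming the others, with polynomial gaps (`FilterOf W w`). Q1 (every
infinite word generated by iterating a non-erasing dgsm is generated in logarithmic space) holds if
and only if it holds for these words. One of these words is not morphic.

2. Let `F` be not hard. Every infinite word generated by iterating a non-erasing dgsm with states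
`Fin p` such that every letter acts on the states by a map in `F` is morphic (`Morphic w`: a letter
to letter image of a word generated by iterating a non-erasing morphism), hence generated in
logarithmic space; if `F` and `Fin p` are nonempty, the morphic words are exactly the letter to
letter images of these words. Some word generated in polynomial time is not a filter of any of
these words. -/
theorem result (p k : ℕ) (F : Set (Fin p → Fin p)) (hF : ∀ f ∈ F, ∀ g ∈ F, f ∘ g ∈ F) :
    (HasReset F ∨ HasSwap F →
      (∀ (d : ℕ) (w : ℕ → Fin d), PolyTime w ↔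
        ∃ (D : ℕ) (δ : Fin p → Fin D → Fin p) (q0 : Fin p)
          (out : Fin p → Fin D → List (Fin D)) (a : Fin D) (W : ℕ → Fin D),
          Iterates δ q0 out a W ∧ (∀ x, (fun s => δ s x) ∈ F) ∧
          (∀ s x, (out s x).length ≤ 2) ∧
          (∃ C, ∀ n, ((trans δ q0 out)^[n] [a]).length ^ k ≤ C * (n + 1) ^ (k + 1)) ∧
          FilterOf W w) ∧
      ((∀ (d p : ℕ) (δ : Fin p → Fin d → Fin p) (q0 : Fin p)
        (out : Fin p → Fin d → List (Fin d)) (a : Fin d) (w : ℕ → Fin d),
        Iterates δ q0 out a w → LogSpace w) ↔
      (∀ (d : ℕ) (δ : Fin p → Fin d → Fin p) (q0 : Fin p)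
        (out : Fin p → Fin d → List (Fin d)) (a : Fin d) (w : ℕ → Fin d),
        Iterates δ q0 out a w → (∀ x, (fun s => δ s x) ∈ F) →
        (∀ s x, (out s x).length ≤ 2) →
        (∃ C, ∀ n, ((trans δ q0 out)^[n] [a]).length ^ k ≤ C * (n + 1) ^ (k + 1)) →
        LogSpace w)) ∧
      ∃ (d : ℕ) (δ : Fin p → Fin d → Fin p) (q0 : Fin p)
        (out : Fin p → Fin d → List (Fin d)) (a : Fin d) (w : ℕ → Fin d),
        Iterates δ q0 out a w ∧ (∀ x, (fun s => δ s x) ∈ F) ∧
        (∀ s x, (out s x).length ≤ 2) ∧
        (∃ C, ∀ n, ((trans δ q0 out)^[n] [a]).length ^ k ≤ C * (n + 1) ^ (k + 1)) ∧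
        ¬ Morphic w) ∧
    (¬ (HasReset F ∨ HasSwap F) →
      (∀ (d : ℕ) (δ : Fin p → Fin d → Fin p) (q0 : Fin p)
        (out : Fin p → Fin d → List (Fin d)) (a : Fin d) (w : ℕ → Fin d),
        Iterates δ q0 out a w → (∀ x, (fun s => δ s x) ∈ F) → Morphic w ∧ LogSpace w) ∧
      (F.Nonempty → 0 < p → ∀ (d : ℕ) (w : ℕ → Fin d), Morphic w ↔
        ∃ (D : ℕ) (δ : Fin p → Fin D → Fin p) (q0 : Fin p)
          (out : Fin p → Fin D → List (Fin D)) (a : Fin D) (W : ℕ → Fin D) (c : Fin D → Fin d),
          Iterates δ q0 out a W ∧ (∀ x, (fun s => δ s x) ∈ F) ∧ ∀ n, w n = c (W n)) ∧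
      ∃ (d : ℕ) (w : ℕ → Fin d), PolyTime w ∧
        ∀ (D : ℕ) (δ : Fin p → Fin D → Fin p) (q0 : Fin p)
          (out : Fin p → Fin D → List (Fin D)) (a : Fin D) (W : ℕ → Fin D),
          Iterates δ q0 out a W → (∀ x, (fun s => δ s x) ∈ F) → ¬ FilterOf W w) :=
  main p k F hF

end Pool.Agent.Results.MP_5d512e_lc.Dichotomy
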