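import Pool.Agent.W_5d512e_dic2.Gate
import Pool.Agent.W_5d512e_flt.EasyG73

/-!
The question by the logic gates of the transducer: for every set `B` of Boolean functions, words
generated by sequential circuits with gates in `B` are all in logarithmic space, and their filters
miss a word generated in polynomial time, or their filters are all words generated in polynomial
time, even for one-way cellular automata.
-/

open Pool.Agent.W_MP_5d512e_h33 Pool.Agent.W_5d512e_post
open Pool.Agent.W_5d512e_h80 (FilterOf)
open Pool.Agent.W_5d512e_alt (PolyTime)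

namespace Pool.Agent.Results.MP_5d512e_lc.GateDichotomy

/-- Let `B` be any set of Boolean functions. `Circuit B δ q0 out a`: the dgsm is a sequential
circuit whose letters are bit vectors `x`, a start letter `a` and a marker `m`, whose states are
bit vectors `s`, which reads `x` in the state `s`, writes the single letter `g (s, x)` and goes to
the state `f (s, x)`, all coordinates of `f` and `g` being composed from `B` and the variables; on
`m` it returns to the initial state and writes `y`, `m`. `Cellular B`: moreover the state is the
last letter read. `PolyTime w`: `w` is generated in polynomial time. `FilterOf W w`: `w` is obtained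
from `W` by deleting some letters and renaming the others, the gaps being polynomial.

There is a word `w₀` generated in polynomial time such that for every `B`:

1. If all functions of `B` are affine, or all of them preserve AND, or all of them preserve OR,
then every infinite word generated by iterating a dgsm in `Circuit B` is generated in logarithmic
space, and `w₀` is not a filter of such a word.

2. For every other set `B` an infinite word is generated in polynomial time iff it is a filter of
a word generated by iterating a dgsm in `Cellular B`; and the following are equivalent: Q1; Q1 for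
the dgsm's in `Circuit B`; Q1 for the dgsm's in `Cellular B`. -/
theorem result : ∃ (d₀ : ℕ) (w₀ : ℕ → Fin d₀), PolyTime w₀ ∧
    ∀ B : ∀ n : ℕ, Set ((Fin n → Bool) → Bool),
    ((∀ n, ∀ f ∈ B n, Affine f) ∨ (∀ n, ∀ f ∈ B n, PresAnd f) ∨ (∀ n, ∀ f ∈ B n, PresOr f) →
      (∀ (d p : ℕ) (δ : Fin p → Fin d → Fin p) (q0 : Fin p)
        (out : Fin p → Fin d → List (Fin d)) (a : Fin d) (w : ℕ → Fin d),
        Iterates δ q0 out a w → Circuit B δ q0 out a → LogSpace w) ∧
      ¬ ∃ (D p : ℕ) (δ : Fin p → Fin D → Fin p) (q0 : Fin p)
          (out : Fin p → Fin D → List (Fin D)) (a : Fin D) (W : ℕ → Fin D),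
          Iterates δ q0 out a W ∧ Circuit B δ q0 out a ∧ FilterOf W w₀) ∧
    (¬ ((∀ n, ∀ f ∈ B n, Affine f) ∨ (∀ n, ∀ f ∈ B n, PresAnd f) ∨
        (∀ n, ∀ f ∈ B n, PresOr f)) →
      (∀ (d : ℕ) (w : ℕ → Fin d), PolyTime w ↔
        ∃ (D p : ℕ) (δ : Fin p → Fin D → Fin p) (q0 : Fin p)
          (out : Fin p → Fin D → List (Fin D)) (a : Fin D) (W : ℕ → Fin D),
          Iterates δ q0 out a W ∧ Cellular B δ q0 out a ∧ FilterOf W w) ∧
      List.TFAE [
        ∀ (d p : ℕ) (δ : Fin p → Fin d → Fin p) (q0 : Fin p)
          (out : Fin p → Fin d → List (Fin d)) (a : Fin d) (w : ℕ → Fin d),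
          Iterates δ q0 out a w → LogSpace w,
        ∀ (d p : ℕ) (δ : Fin p → Fin d → Fin p) (q0 : Fin p)
          (out : Fin p → Fin d → List (Fin d)) (a : Fin d) (w : ℕ → Fin d),
          Iterates δ q0 out a w → Circuit B δ q0 out a → LogSpace w,
        ∀ (d p : ℕ) (δ : Fin p → Fin d → Fin p) (q0 : Fin p)
          (out : Fin p → Fin d → List (Fin d)) (a : Fin d) (w : ℕ → Fin d),
          Iterates δ q0 out a w → Cellular B δ q0 out a → LogSpace w]) := by
  obtain ⟨d₀, w₀, h0, h1⟩ := Pool.Agent.W_5d512e_flt.gate_easy
  exact ⟨d₀, w₀, h0, fun B => ⟨fun hB => ⟨(main_theorem B).1 hB, h1 B hB⟩,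
    fun hB => ⟨fun _ w => hard_polyTime hB w, (main_theorem B).2 hB⟩⟩⟩

end Pool.Agent.Results.MP_5d512e_lc.GateDichotomy
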