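import Pool.Agent.W_5d512e_h80.Final
import Pool.Agent.W_5d512e_h80.Powers

/-!
The question at each rate of growth: iterating a non-erasing dgsm with growth `O(n * s n)` gives,
up to deleting letters, exactly the infinite words generated in polynomial time and space `O(s)`.
-/

open Pool.Agent.W_MP_5d512e_h33 Pool.Agent.W_5d512e_h80

namespace Pool.Agent.Results.MP_5d512e_lc.GrowthSpectrum

/-- Notation: `GrowthWord b s W` says that `W` is generated by iterating a non-erasing dgsm with
growth `|τ^n(a)| ≤ C * (n + 1) * s n` and outputs of length at most `b`; `TimeSpace s w` that `w`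
is generated by a multi-tape machine in time `C * (n + 1) ^ C` and, simultaneously, space
`C * s n`; `FilterOf W w` that `w` arises from `W` by deleting some letters and renaming the
others, the `n`-th remaining letter being among the first `C * (n + 1) ^ C` letters of `W`;
`Adm s` that `s` is nondecreasing, `s n ≥ log n + 1` and `s (n ^ 2) ≤ c * s n`.

1. The functions `(log n + 1) ^ (k + 1)` are admissible.
2. For admissible `s`, a word is in `TimeSpace s` iff it is a filter of a word generated by
   iterating a dgsm of growth `O(n * s n)`, then even with outputs of length at most two.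
3. For admissible `s`, the following are equivalent: all dgsm words of growth `O(n * s n)` are
   generated in logarithmic space; those with outputs of length at most two are; all words in
   `TimeSpace s` are.
4. A word is generated in logarithmic space iff it is a filter of a dgsm word of growth
   `O(n * log n)`.
5. Hence Q1 holds iff every dgsm word is a filter of a dgsm word of growth `O(n * log n)`. -/
theorem result :
    (∀ k : ℕ, Adm (fun n => (Nat.log 2 n + 1) ^ (k + 1))) ∧
    (∀ s : ℕ → ℕ, Adm s →
      (∀ (d : ℕ) (w : ℕ → Fin d), List.TFAE [TimeSpace s w,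
        ∃ (D : ℕ) (W : ℕ → Fin D), GrowthWord 2 s W ∧ FilterOf W w,
        ∃ (D b : ℕ) (W : ℕ → Fin D), GrowthWord b s W ∧ FilterOf W w]) ∧
      List.TFAE [∀ (D b : ℕ) (W : ℕ → Fin D), GrowthWord b s W → LogSpace W,
        ∀ (D : ℕ) (W : ℕ → Fin D), GrowthWord 2 s W → LogSpace W,
        ∀ (d : ℕ) (w : ℕ → Fin d), TimeSpace s w → LogSpace w]) ∧
    (∀ (d : ℕ) (w : ℕ → Fin d), LogSpace w ↔
      ∃ (D : ℕ) (W : ℕ → Fin D), GrowthWord 2 (fun n => Nat.log 2 n + 1) W ∧ FilterOf W w) ∧
    ((∀ (d p : ℕ) (δ : Fin p → Fin d → Fin p) (q0 : Fin p)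
        (out : Fin p → Fin d → List (Fin d)) (a : Fin d) (w : ℕ → Fin d),
        Iterates δ q0 out a w → LogSpace w) ↔
      (∀ (d p : ℕ) (δ : Fin p → Fin d → Fin p) (q0 : Fin p)
        (out : Fin p → Fin d → List (Fin d)) (a : Fin d) (w : ℕ → Fin d),
        Iterates δ q0 out a w →
        ∃ (D : ℕ) (W : ℕ → Fin D), GrowthWord 2 (fun n => Nat.log 2 n + 1) W ∧
          FilterOf W w)) := by
  refine ⟨adm_pow, fun s hs => ⟨fun d w => ?_, ?_⟩, fun d w => logSpace_iff w, ?_⟩
  · tfae_have 1 → 2 := filter_of_timeSpace hs
    tfae_have 2 → 3 := fun ⟨D, W, h1, h2⟩ => ⟨D, 2, W, h1, h2⟩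
    tfae_have 3 → 1 := fun ⟨_, _, _, h1, h2⟩ =>
      timeSpace_filter hs h2 (timeSpace_of_growthWord hs h1)
    tfae_finish
  · tfae_have 1 → 2 := fun h D W => h D 2 W
    tfae_have 2 → 3 := fun h d w hw => by
      obtain ⟨D, W, h1, h2⟩ := filter_of_timeSpace hs hw
      exact logSpace_filter h2 (h D W h1)
    tfae_have 3 → 1 := fun h D b W hW => h D W (timeSpace_of_growthWord hs hW)
    tfae_finish
  · constructor
    · intro h d p δ q0 out a w hI
      exact (logSpace_iff w).1 (h d p δ q0 out a w hI)
    · intro h d p δ q0 out a w hI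
      exact (logSpace_iff w).2 (h d p δ q0 out a w hI)

end Pool.Agent.Results.MP_5d512e_lc.GrowthSpectrum
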