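import Pool.Agent.W_5d512e_alt.Final

/-!
Almost morphic words: iterate the map which relabels every `m`-th letter by a fixed letter-to-letter
map and then applies one morphism. For every `m ≥ 2` the polynomial time words are exactly the
filters of these words, so the question for them is as hard as for all dgsm words.
-/

open Pool.Agent.W_MP_5d512e_h33 Pool.Agent.W_5d512e_h80 Pool.Agent.W_5d512e_alt

namespace Pool.Agent.Results.MP_5d512e_lc.PeriodicRelabelling

/-- Let `m ≥ 2`, and let `k` be a natural number. `step m κ g` is the map which replaces every
`m`-th letter `x` of a word by `κ x` and then applies the morphism `g` to the word; `g` is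
non-erasing, and `w` is the infinite word generated by iterating this map on the letter `a`
(`Generates m κ g a w`). Consider the words `W` of this kind for which the lengths of the iterates
satisfy `length ^ k ≤ C * (n + 1) ^ (2 * k + 1)` for some `C` and all `n`.

1. An infinite word is generated in polynomial time (`PolyTime w`) iff it is obtained from such a
word `W` by deleting some letters and renaming the others, the `n`-th remaining letter being among
the first `C * (n + 1) ^ C` letters of `W` (`FilterOf W w`).

2. Q1 (every infinite word generated by iterating a non-erasing dgsm is generated in logarithmic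
space) holds if and only if all such words `W` are generated in logarithmic space.

3. Every word generated by iterating a map `step m κ g` is ultimately periodic, or the lengths of
the iterates satisfy `(n + 1) ^ 2 ≤ C * length` for some `C` and all `n`. -/
theorem result (m k : ℕ) (hm : 2 ≤ m) :
    (∀ (d : ℕ) (w : ℕ → Fin d), PolyTime w ↔
      ∃ (D : ℕ) (κ : Fin D → Fin D) (g : Fin D → List (Fin D)) (a : Fin D) (W : ℕ → Fin D),
        Generates m κ g a W ∧
        (∃ C, ∀ n, ((step m κ g)^[n] [a]).length ^ k ≤ C * (n + 1) ^ (2 * k + 1)) ∧
        FilterOf W w) ∧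
    ((∀ (d p : ℕ) (δ : Fin p → Fin d → Fin p) (q0 : Fin p)
        (out : Fin p → Fin d → List (Fin d)) (a : Fin d) (w : ℕ → Fin d),
        Iterates δ q0 out a w → LogSpace w) ↔
      (∀ (d : ℕ) (κ : Fin d → Fin d) (g : Fin d → List (Fin d)) (a : Fin d) (w : ℕ → Fin d),
        Generates m κ g a w →
        (∃ C, ∀ n, ((step m κ g)^[n] [a]).length ^ k ≤ C * (n + 1) ^ (2 * k + 1)) →
        LogSpace w)) ∧
    (∀ (d : ℕ) (κ : Fin d → Fin d) (g : Fin d → List (Fin d)) (a : Fin d) (w : ℕ → Fin d),
      Generates m κ g a w →
      (∃ N P : ℕ, 0 < P ∧ ∀ i ≥ N, w (i + P) = w i) ∨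
        ∃ C, ∀ n, (n + 1) ^ 2 ≤ C * ((step m κ g)^[n] [a]).length) :=
  main_theorem m k hm

end Pool.Agent.Results.MP_5d512e_lc.PeriodicRelabelling
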